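import Mathlib
import Pool.Agent.X67.EK.Main

set_option autoImplicit false

namespace Pool.Agent.Results.MP_02e1b1_nt.NoUniformRate

open Filter Topology Pool.Agent.X67.EK

/-- **Q1 is disproved.** For every sequence `η_N → 0` (in particular for every `η_N ↘ 0`) and every
interval `(x, y)` with `1/2 ≤ x < y` there is `α ∈ (x, y)` such that the triple `(α, 1, 1/2)` is
admissible and `d_K(X_N^{α,1,1/2}, Z)` is not `O(η_N)`. -/
theorem result : ∀ η : ℕ → ℝ, Tendsto η atTop (𝓝 0) → ∀ x y : ℝ, 1 / 2 ≤ x → x < y →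
    ∃ α : ℝ, x < α ∧ α < y ∧ Admissible α 1 (1 / 2) ∧
      ¬ (fun N : ℕ => dK α 1 (1 / 2) N) =O[atTop] η := by
  intro η hη x y hx hxy
  obtain ⟨α, h1, h2⟩ := (dense_of_mem_residual (generic η hη)).inter_open_nonempty
    (Set.Ioo x y) isOpen_Ioo (Set.nonempty_Ioo.2 hxy)
  exact ⟨α, h1.1, h1.2, h2 (lt_of_le_of_lt hx h1.1)⟩

end Pool.Agent.Results.MP_02e1b1_nt.NoUniformRate
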